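import Pool.Agent.Work.MP_46fa68_h4.Conv

/-!
# MP_46fa68_co: moves of one bead, exact factors (note 2184 of helper38, (U4), (V))

* `Rr_move`, `rh_move`: moving a bead below `x` up by one multiplies `Rr B x d` (and `rh k a C d`) by exactly
  `1 + d / ((Z - 1) (Z + d))`, where `Z` is the distance to `x` before the move;
* `Rr_split`: `Rr B x d` with `U` the beads above and `C` the beads below `x = k + a`;
* `Rr_second`: the second row;
* `one_le_rh`, `rh_le_row`: `1 ≤ rh k a C d ≤ (1 + d/(a+1-s))/(1 + d/(a+1))` with `s` boxes below.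
-/

set_option autoImplicit false

open Finset Equiv

namespace Pool.JM

/-- the factor of one move -/
theorem move_factor {Z d : ℝ} (h1 : Z ≠ 0) (h2 : Z - 1 ≠ 0) (h3 : Z + d ≠ 0) :
    (Z - 1 + d) / (Z - 1) = (1 + d / ((Z - 1) * (Z + d))) * ((Z + d) / Z) := by
  field_simp
  ring

/-- **(U4).** Moving the bead `y` (with `y + 1 < x`) up by one. -/
theorem Rr_move {B : Finset ℕ} {x y : ℕ} (hy : y ∈ B) (hy1 : y + 1 ∉ B) (hxy : y + 1 < x) (d : ℕ) :
    Rr (insert (y + 1) (B.erase y)) x d =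
      (1 + (d : ℝ) / (((x : ℝ) - y - 1) * ((x : ℝ) - y + d))) * Rr B x d := by
  have hd : (0 : ℝ) ≤ d := Nat.cast_nonneg d
  have hxyR : (y : ℝ) + 1 < x := by exact_mod_cast hxy
  have e1 : (insert (y + 1) (B.erase y)).erase x = insert (y + 1) ((B.erase x).erase y) := by
    rw [erase_insert_of_ne (by omega : y + 1 ≠ x), erase_right_comm]
  have n1 : y + 1 ∉ (B.erase x).erase y := fun h => hy1 (mem_of_mem_erase (mem_of_mem_erase h))
  have hyx : y ∈ B.erase x := mem_erase.2 ⟨by omega, hy⟩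
  unfold Rr
  rw [e1, prod_insert n1, ← mul_prod_erase (B.erase x) _ hyx]
  have hf := move_factor (Z := (x : ℝ) - y) (d := d) (by linarith) (by linarith) (by linarith)
  have e2 : ((x : ℝ) + d - ((y + 1 : ℕ) : ℝ)) / ((x : ℝ) - ((y + 1 : ℕ) : ℝ)) =
      ((x : ℝ) - y - 1 + d) / ((x : ℝ) - y - 1) := by
    push_cast
    congr 1 <;> ring
  have e3 : ((x : ℝ) + d - y) / ((x : ℝ) - y) = ((x : ℝ) - y + d) / ((x : ℝ) - y) := by
    congr 1; ring
  rw [e2, e3, hf]
  ring

/-- moving a bead of the rest -/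
theorem rh_move {k a y : ℕ} {C : Finset ℕ} (hy : y ∈ C) (hy1 : y + 1 ∉ C) (hxy : y + 1 < k + a)
    (d : ℕ) : rh k a (insert (y + 1) (C.erase y)) d =
      (1 + (d : ℝ) / ((((k + a : ℕ) : ℝ) - y - 1) * (((k + a : ℕ) : ℝ) - y + d))) * rh k a C d := by
  have hd : (0 : ℝ) ≤ d := Nat.cast_nonneg d
  have hxyR : (y : ℝ) + 1 < ((k + a : ℕ) : ℝ) := by exact_mod_cast hxy
  have n1 : y + 1 ∉ C.erase y := fun h => hy1 (mem_of_mem_erase h)
  unfold rh
  rw [prod_insert n1, ← mul_prod_erase C _ hy]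
  set x : ℝ := ((k + a : ℕ) : ℝ) with hx
  have hf := move_factor (Z := x - y) (d := d) (by linarith) (by linarith) (by linarith)
  have e2 : (x + d - ((y + 1 : ℕ) : ℝ)) / (x - ((y + 1 : ℕ) : ℝ)) =
      (x - y - 1 + d) / (x - y - 1) := by
    push_cast
    congr 1 <;> ring
  have e3 : (x + d - y) / (x - y) = (x - y + d) / (x - y) := by
    congr 1; ring
  rw [e2, e3, hf]
  ring

/-- **The split of a one-bead ratio**: `U` = the beads above, `C` = the beads below `x = k + a`. -/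
theorem Rr_split {k a : ℕ} {U C : Finset ℕ} (hU : ∀ y ∈ U, k + a < y) (hC : ∀ y ∈ C, y < k + a)
    (d : ℕ) : Rr (U ∪ insert (k + a) C) (k + a) d =
      (∏ y ∈ U, (1 - (d : ℝ) / ((y : ℝ) - ((k + a : ℕ) : ℝ)))) *
        ((a.factorial : ℝ) / (a + d).factorial) * rh k a C d := by
  have hdisj : Disjoint U C := disjoint_left.2 fun y h1 h2 => by
    have := hU y h1; have := hC y h2; omega
  have e1 : (U ∪ insert (k + a) C).erase (k + a) = U ∪ C := by
    ext y
    simp only [mem_erase, mem_union, mem_insert]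
    constructor
    · rintro ⟨h1, h2 | h2 | h2⟩
      · exact Or.inl h2
      · exact absurd h2 h1
      · exact Or.inr h2
    · rintro (h | h)
      · exact ⟨by have := hU y h; omega, Or.inl h⟩
      · exact ⟨by have := hC y h; omega, Or.inr (Or.inr h)⟩
  have e2 : (insert (k + a) C).erase (k + a) = C := erase_insert fun h => by
    have := hC _ h; omega
  have h3 := Rr_rh (k := k) (a := a) (B := insert (k + a) C) d
  rw [e2] at h3
  unfold Rr at h3 ⊢
  rw [e1, prod_union hdisj]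
  rw [e2] at h3
  have e4 : ∏ y ∈ U, ((((k + a : ℕ) : ℝ) + d - y) / (((k + a : ℕ) : ℝ) - y)) =
      ∏ y ∈ U, (1 - (d : ℝ) / ((y : ℝ) - ((k + a : ℕ) : ℝ))) := by
    refine prod_congr rfl fun y hy => ?_
    have hy' : ((k + a : ℕ) : ℝ) < y := by exact_mod_cast hU y hy
    have n1 : ((k + a : ℕ) : ℝ) - y ≠ 0 := by linarith
    have n2 : (y : ℝ) - ((k + a : ℕ) : ℝ) ≠ 0 := by linarith
    rw [div_eq_iff n1, sub_mul, one_mul, div_mul_eq_mul_div, eq_sub_iff_add_eq, ← eq_sub_iff_add_eq',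
      div_eq_iff n2]
    ring
  rw [e4, mul_assoc (∏ y ∈ U, (1 - (d : ℝ) / ((y : ℝ) - ((k + a : ℕ) : ℝ)))), h3]
  ring

/-- **(V), exact form.** The second row: `x₁ = k + b + D`, `x₂ = k + b`, rest `C`. -/
theorem Rr_second {k b D : ℕ} (hD : 1 ≤ D) {C : Finset ℕ} (hC : ∀ y ∈ C, y < k + b) (d : ℕ) :
    Rr (insert (k + b + D) (insert (k + b) C)) (k + b) d =
      (1 - (d : ℝ) / D) * ((b.factorial : ℝ) / (b + d).factorial) * rh k b C d := by
  have h := Rr_split (k := k) (a := b) (U := {k + b + D}) (C := C)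
    (fun y hy => by rw [mem_singleton] at hy; omega) hC d
  rw [singleton_union, prod_singleton] at h
  rw [h]
  congr 3
  push_cast
  congr 2
  ring

/-- the lower bound of the rest -/
theorem one_le_rh {k a : ℕ} {C : Finset ℕ} (hc : C.card = k) (hb : ∀ y ∈ C, y < k + a) (d : ℕ) :
    1 ≤ rh k a C d := by
  obtain ⟨-, h2, -⟩ := rh_props k a C hc hb
  have h0 : rh k a C 0 = 1 := by
    unfold rh
    have g1 : ∏ y ∈ C, ((((k + a : ℕ) : ℝ) + ((0 : ℕ) : ℝ) - y) / (((k + a : ℕ) : ℝ) - y)) = 1 := by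
      refine prod_eq_one fun y hy => ?_
      have hy2 : (y : ℝ) < ((k + a : ℕ) : ℝ) := by exact_mod_cast hb y hy
      have hne : ((k + a : ℕ) : ℝ) - y ≠ 0 := by linarith
      rw [Nat.cast_zero, add_zero]
      exact div_self hne
    have g2 : ∏ y ∈ range k, ((((k + a : ℕ) : ℝ) + ((0 : ℕ) : ℝ) - y) /
        (((k + a : ℕ) : ℝ) - y)) = 1 := by
      refine prod_eq_one fun y hy => ?_
      have hy2 : (y : ℝ) < ((k + a : ℕ) : ℝ) := by
        have := mem_range.1 hy
        exact_mod_cast (by omega : y < k + a)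
      have hne : ((k + a : ℕ) : ℝ) - y ≠ 0 := by linarith
      rw [Nat.cast_zero, add_zero]
      exact div_self hne
    rw [g1, g2, div_one]
  induction d with
  | zero => rw [h0]
  | succ d ih => exact ih.trans (h2 d)

/-- `gx` in the form of (V) -/
theorem gx_eq {a s d : ℝ} (ha : 0 ≤ a) (hs : s ≤ a) (hd : 0 ≤ d) :
    gx (a + 1) s d = (1 + d / (a + 1 - s)) / (1 + d / (a + 1)) := by
  unfold gx
  have h1 : 0 < a + 1 := by linarith
  have h2 : 0 < a + 1 - s := by linarith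
  have h3 : 0 < a + 1 + d := by linarith
  have h4 : 0 < 1 + d / (a + 1) := by positivity
  rw [eq_div_iff h4.ne']
  field_simp

/-- **(V), the bound of the rest.** -/
theorem rh_le_row {k a s : ℕ} {C : Finset ℕ} (hc : C.card = k) (hb : ∀ y ∈ C, y < k + a)
    (hs : ∑ y ∈ C, y = ∑ y ∈ range k, y + s) (hsa : s ≤ a) (d : ℕ) :
    rh k a C d ≤ (1 + (d : ℝ) / ((a : ℝ) + 1 - s)) / (1 + (d : ℝ) / ((a : ℝ) + 1)) := by
  have h := prod_row d k C a s hc hs hb hsa
  have hp := base_pos k a d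
  rw [gx_eq (Nat.cast_nonneg a) (by exact_mod_cast hsa) (Nat.cast_nonneg d)] at h
  unfold rh
  rw [div_le_iff₀ hp]
  rw [mul_comm] at h
  exact h

end Pool.JM
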